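import Mathlib

set_option autoImplicit false

namespace Pool.Agent.Results.MP_176834_co.No

open Finset

/-- 3-tensors of arbitrary finite format -/
structure Ten (F : Type) where
  n1 : ℕ
  n2 : ℕ
  n3 : ℕ
  t : Fin n1 → Fin n2 → Fin n3 → F

variable {F : Type} [Field F]

/-- the tensor `(A ⊗ B ⊗ C) t` -/
def act {m1 m2 m3 n1 n2 n3 : ℕ} (A : Matrix (Fin m1) (Fin n1) F) (B : Matrix (Fin m2) (Fin n2) F)
    (C : Matrix (Fin m3) (Fin n3) F) (t : Fin n1 → Fin n2 → Fin n3 → F) :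
    Fin m1 → Fin m2 → Fin m3 → F :=
  fun i j k => ∑ a, ∑ b, ∑ c, A i a * B j b * C k c * t a b c

/-- restriction -/
def Res (S T : Ten F) : Prop := ∃ A B C, S.t = act A B C T.t

/-- direct sum -/
def dsum (S T : Ten F) : Ten F :=
  ⟨S.n1 + T.n1, S.n2 + T.n2, S.n3 + T.n3, fun i j k =>
    match finSumFinEquiv.symm i, finSumFinEquiv.symm j, finSumFinEquiv.symm k with
    | Sum.inl a, Sum.inl b, Sum.inl c => S.t a b c
    | Sum.inr a, Sum.inr b, Sum.inr c => T.t a b c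
    | _, _, _ => 0⟩

/-- Kronecker product -/
def kron (S T : Ten F) : Ten F :=
  ⟨S.n1 * T.n1, S.n2 * T.n2, S.n3 * T.n3, fun i j k =>
    S.t i.divNat j.divNat k.divNat * T.t i.modNat j.modNat k.modNat⟩

/-- unit tensor -/
def unit (F : Type) [Field F] (r : ℕ) : Ten F :=
  ⟨r, r, r, fun i j k => if i = j ∧ j = k then 1 else 0⟩

/-- points of the asymptotic spectrum -/
def Spec (f : Ten F → ℝ) : Prop :=
  (∀ T, 0 ≤ f T) ∧ (∀ S T, Res S T → f S ≤ f T) ∧ f (unit F 0) = 0 ∧ f (unit F 1) = 1 ∧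
    (∀ S T, f (dsum S T) = f S + f T) ∧ ∀ S T, f (kron S T) = f S * f T

/-- condition (b) -/
def CondB (F : Type) [Field F] : Prop :=
  ∃ (c : ℚ → Ten F) (b : Ten F) (s t : ℝ), 1 < s ∧ s < t ∧
    (∀ q r, 2 ≤ q → q ≤ r → Res (c q) (c r)) ∧
    ∀ l ∈ Set.Icc s t, ∃ f, Spec f ∧ (∀ q : ℚ, 2 ≤ q → f (c q) = q) ∧ f b = l

theorem act_act {l1 l2 l3 m1 m2 m3 n1 n2 n3 : ℕ} (A' : Matrix (Fin l1) (Fin m1) F)
    (B' : Matrix (Fin l2) (Fin m2) F) (C' : Matrix (Fin l3) (Fin m3) F)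
    (A : Matrix (Fin m1) (Fin n1) F) (B : Matrix (Fin m2) (Fin n2) F)
    (C : Matrix (Fin m3) (Fin n3) F) (t : Fin n1 → Fin n2 → Fin n3 → F) :
    act A' B' C' (act A B C t) = act (A' * A) (B' * B) (C' * C) t := by
  funext i j k
  simp only [act, Matrix.mul_apply, mul_sum, sum_mul]
  simp only [← Fintype.sum_prod_type']
  refine Fintype.sum_equiv
    ⟨fun x => (x.2.2.2.1, x.2.2.2.2.1, x.2.2.2.2.2, x.2.2.1, x.2.1, x.1),
     fun x => (x.2.2.2.2.2, x.2.2.2.2.1, x.2.2.2.1, x.1, x.2.1, x.2.2.1),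
     fun _ => rfl, fun _ => rfl⟩ _ _ fun x => ?_
  simp only [Equiv.coe_fn_mk]
  ring

theorem act_one {n1 n2 n3 : ℕ} (t : Fin n1 → Fin n2 → Fin n3 → F) : act 1 1 1 t = t := by
  funext i j k
  simp [act, Matrix.one_apply]

theorem Res.trans {R S T : Ten F} (h1 : Res R S) (h2 : Res S T) : Res R T := by
  obtain ⟨A, B, C, e⟩ := h1
  obtain ⟨A', B', C', e'⟩ := h2
  exact ⟨_, _, _, by rw [e, e', act_act]⟩

theorem fac {m n : ℕ} (A : Matrix (Fin m) (Fin n) F) : ∃ r ≤ n,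
    ∃ (A2 : Matrix (Fin m) (Fin r) F) (A1 : Matrix (Fin r) (Fin n) F), A = A2 * A1 ∧
      (r = n → ∃ L : Matrix (Fin n) (Fin m) F, L * A = 1) := by
  let f := Matrix.toLin' A
  let e := (Module.finBasis F (LinearMap.range f)).equivFun
  have h := f.finrank_range_add_finrank_ker
  simp only [Module.finrank_fintype_fun_eq_card, Fintype.card_fin] at h
  refine ⟨Module.finrank F (LinearMap.range f), by omega,
    LinearMap.toMatrix' ((LinearMap.range f).subtype ∘ₗ e.symm.toLinearMap),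
    LinearMap.toMatrix' (e.toLinearMap ∘ₗ f.rangeRestrict), ?_, fun hr => ?_⟩
  · rw [← LinearMap.toMatrix'_comp, ← LinearMap.toMatrix'_toLin' A]
    congr 1
    refine LinearMap.ext fun x => ?_
    change f x = ((e.symm (e (f.rangeRestrict x)) : LinearMap.range f) : Fin m → F)
    rw [e.symm_apply_apply]
    rfl
  · have hk : LinearMap.ker f = ⊥ := Submodule.finrank_eq_zero.1 (by omega)
    obtain ⟨g, hg⟩ := LinearMap.exists_leftInverse_of_injective f hk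
    refine ⟨LinearMap.toMatrix' g, ?_⟩
    rw [← LinearMap.toMatrix'_toLin' A, ← LinearMap.toMatrix'_comp, hg, LinearMap.toMatrix'_id]

theorem step {S T : Ten F} (h : Res S T) :
    Res T S ∨ ∃ T' : Ten F, T'.n1 + T'.n2 + T'.n3 < T.n1 + T.n2 + T.n3 ∧ Res S T' := by
  obtain ⟨A, B, C, e⟩ := h
  obtain ⟨r1, a1, A2, A1, a2, a3⟩ := fac A
  obtain ⟨r2, b1, B2, B1, b2, b3⟩ := fac B
  obtain ⟨r3, c1, C2, C1, c2, c3⟩ := fac C
  by_cases hr : r1 + r2 + r3 < T.n1 + T.n2 + T.n3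
  · refine Or.inr ⟨⟨r1, r2, r3, act A1 B1 C1 T.t⟩, hr, A2, B2, C2, ?_⟩
    rw [act_act, ← a2, ← b2, ← c2, e]
  · obtain ⟨L1, l1⟩ := a3 (by omega)
    obtain ⟨L2, l2⟩ := b3 (by omega)
    obtain ⟨L3, l3⟩ := c3 (by omega)
    exact Or.inl ⟨L1, L2, L3, by rw [e, act_act, l1, l2, l3, act_one]⟩

theorem nochain (N : ℕ) : ∀ (T : Ten F) (s : ℕ → Ten F), T.n1 + T.n2 + T.n3 = N → Res (s 0) T →
    (∀ n, Res (s (n + 1)) (s n)) → ∃ n, Res (s n) (s (n + 1)) := by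
  induction N using Nat.strong_induction_on with
  | _ N ih =>
    intro T s hN h0 hs
    rcases step ((hs 0).trans h0) with h | ⟨T', h1, h2⟩
    · exact ⟨0, h0.trans h⟩
    · obtain ⟨n, hn⟩ := ih _ (hN ▸ h1) T' (fun n => s (n + 1)) rfl h2 fun n => hs _
      exact ⟨n + 1, hn⟩

theorem wf (s : ℕ → Ten F) (hs : ∀ n, Res (s (n + 1)) (s n)) : ∃ n, Res (s n) (s (n + 1)) :=
  nochain _ (s 0) s rfl ⟨1, 1, 1, (act_one _).symm⟩ hs

theorem result (F : Type) [Field F] : ¬ CondB F ∧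
    ¬ ∀ (P : Type) [Preorder P] [Countable P],
      ∃ φ : P → Ten F, ∀ x y, x ≤ y ↔ Res (φ x) (φ y) := by
  constructor
  · rintro ⟨c, b, s, t, -, hst, h1, h2⟩
    obtain ⟨f, hf, h3, -⟩ := h2 s ⟨le_rfl, hst.le⟩
    have p : ∀ n : ℕ, (2 : ℚ) ≤ 2 + 1 / ((n : ℚ) + 1) := fun n => by
      have : (0 : ℚ) ≤ 1 / ((n : ℚ) + 1) := by positivity
      linarith
    have q : ∀ n : ℕ, (2 : ℚ) + 1 / (((n + 1 : ℕ) : ℚ) + 1) < 2 + 1 / ((n : ℚ) + 1) := fun n => by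
      have := one_div_lt_one_div_of_lt (show (0 : ℚ) < (n : ℚ) + 1 by positivity)
        (show (n : ℚ) + 1 < ((n + 1 : ℕ) : ℚ) + 1 by push_cast; linarith)
      linarith
    obtain ⟨n, hn⟩ := wf (fun n : ℕ => c (2 + 1 / ((n : ℚ) + 1))) fun n => h1 _ _ (p _) (q n).le
    have := hf.2.1 _ _ hn
    rw [h3 _ (p _), h3 _ (p _)] at this
    exact absurd (q n) (not_lt.2 (by exact_mod_cast this))
  · intro h
    obtain ⟨φ, hφ⟩ := h ℤ
    obtain ⟨n, hn⟩ := wf (fun n : ℕ => φ (-n)) fun n => (hφ _ _).1 (by push_cast; omega)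
    have := (hφ _ _).2 hn
    push_cast at this
    omega

end Pool.Agent.Results.MP_176834_co.No
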